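import Mathlib

/-!
# The UCT problem and the uniqueness of Kirchberg algebras with given K-theory
-/

set_option autoImplicit false

namespace Pool.Agent.Q28.UC

universe u v

/-- Separable nuclear C*-algebras. `UCT A`: `A` satisfies the universal coefficient theorem;
`Kirch A`: `A` is a unital Kirchberg algebra; `Iso`: isomorphism of C*-algebras; `Inv`: the
isomorphism classes of triples `(G₀, G₁, g)` of countable abelian groups `G₀`, `G₁` and `g ∈ G₀`;
`inv A`: the class of `(K₀(A), K₁(A), [1])` for unital `A`; `zero`: the class of `(0, 0, 0)`. -/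
structure Nuclear where
  Alg : Type u
  UCT : Alg → Prop
  Kirch : Alg → Prop
  Iso : Alg → Alg → Prop
  Inv : Type v
  inv : Alg → Inv
  zero : Inv

/-- The published facts. `classification`: Kirchberg algebras with UCT and the same invariant are
isomorphic (Kirchberg, Phillips). `iso`: UCT does not change under isomorphisms. `exists_uct`: every
invariant occurs for a unital Kirchberg algebra with UCT (Elliott, Rørdam). `sum`: for unital Kirchberg
algebras `A` and `C` with `K_*(A) = 0` there is a unital Kirchberg algebra `B` which is KK-equivalent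
to `A ⊕ C`, with the invariant of `C` (Kirchberg: every separable nuclear algebra is KK-equivalent to
a unital Kirchberg algebra with prescribed class of the unit); it satisfies UCT if and only if `A`
and `C` do (UCT passes to direct sums and summands). `kirchberg`: the UCT problem has a positive
answer if all unital Kirchberg algebras with `K_* = 0` satisfy UCT. -/
structure Nuclear.Facts (T : Nuclear.{u, v}) : Prop where
  classification : ∀ A B, T.Kirch A → T.Kirch B → T.UCT A → T.UCT B → T.inv A = T.inv B → T.Iso A B
  iso : ∀ A B, T.Iso A B → (T.UCT A ↔ T.UCT B)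
  exists_uct : ∀ t, ∃ C, T.Kirch C ∧ T.UCT C ∧ T.inv C = t
  sum : ∀ A C, T.Kirch A → T.Kirch C → T.inv A = T.zero →
    ∃ B, T.Kirch B ∧ T.inv B = T.inv C ∧ (T.UCT B ↔ T.UCT A ∧ T.UCT C)
  kirchberg : (∀ A, T.Kirch A → T.inv A = T.zero → T.UCT A) → ∀ A, T.UCT A

/-- the unital Kirchberg algebras with the invariant `t` are isomorphic -/
def Nuclear.Unique (T : Nuclear.{u, v}) (t : T.Inv) : Prop :=
  ∀ A B, T.Kirch A → T.Kirch B → T.inv A = t → T.inv B = t → T.Iso A B

/-- the UCT problem is decided by any single invariant -/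
theorem Nuclear.Facts.tfae {T : Nuclear.{u, v}} (hT : T.Facts) (t : T.Inv) :
    [∀ A, T.UCT A, T.Unique t, ∀ A, T.Kirch A → T.inv A = t → T.UCT A].TFAE := by
  tfae_have 1 → 2 := fun h A B hA hB hAt hBt =>
    hT.classification A B hA hB (h A) (h B) (hAt.trans hBt.symm)
  tfae_have 2 → 3 := fun h A hA hAt => by
    obtain ⟨C, hC, hU, hCt⟩ := hT.exists_uct t
    exact (hT.iso A C (h A C hA hC hAt hCt)).2 hU
  tfae_have 3 → 1 := fun h => hT.kirchberg fun A hA hA0 => by
    obtain ⟨C, hC, -, hCt⟩ := hT.exists_uct t
    obtain ⟨B, hB, hBt, hU⟩ := hT.sum A C hA hC hA0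
    exact (hU.1 (h B hB (hBt.trans hCt))).1
  tfae_finish

end Pool.Agent.Q28.UC
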